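import Pool.Agent.H72.SM.PNe

/-!
# Non-vanishing on the line `Re s = 1` (3-4-1)
-/

set_option autoImplicit false

open Real Complex MeasureTheory Set Filter Topology

namespace Pool.Agent.H72.SM

theorem trig_341 (y : ℝ) : 0 ≤ 3 + 4 * Real.cos y + Real.cos (2 * y) := by
  rw [Real.cos_two_mul]
  nlinarith [sq_nonneg (Real.cos y + 1)]

section

variable {a : ℕ → ℝ} (ha : ∀ n, 0 ≤ a n)
  (hs : ∀ s : ℂ, 1 < s.re → LSeriesSummable (fun n => (a n : ℂ)) s)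

include ha hs in
theorem re_341 {δ : ℝ} (hδ : 0 < δ) (t : ℝ) :
    0 ≤ (3 * LSeries (fun n => (a n : ℂ)) (1 + δ + (0 : ℝ) * I) +
      4 * LSeries (fun n => (a n : ℂ)) (1 + δ + t * I) +
      LSeries (fun n => (a n : ℂ)) (1 + δ + (2 * t : ℝ) * I)).re := by
  have h : ∀ u : ℝ, HasSum (fun n : ℕ => bb a δ n * Real.cos (u * (0 - Real.log n)))
      (LSeries (fun n => (a n : ℂ)) (1 + δ + u * I)).re := by
    intro u
    have h1 := (hs (1 + δ + u * I) (by simp; exact hδ)).hasSum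
    have h2 := Complex.hasSum_re (h1.mul_left (cexp ((u * 0 : ℝ) * I)))
    simp only [term_re ha hδ 0 u] at h2
    have h3 : (cexp ((u * 0 : ℝ) * I) * ∑' n, LSeries.term (fun n => (a n : ℂ))
        (1 + δ + u * I) n) = LSeries (fun n => (a n : ℂ)) (1 + δ + u * I) := by
      rw [mul_zero, Complex.ofReal_zero, zero_mul, Complex.exp_zero, one_mul]
      rfl
    rw [h3] at h2
    exact h2
  have h3 := ((h 0).mul_left 3).add ((h t).mul_left 4) |>.add (h (2 * t))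
  have e : (3 * LSeries (fun n => (a n : ℂ)) (1 + δ + (0 : ℝ) * I) +
      4 * LSeries (fun n => (a n : ℂ)) (1 + δ + t * I) +
      LSeries (fun n => (a n : ℂ)) (1 + δ + (2 * t : ℝ) * I)).re =
      3 * (LSeries (fun n => (a n : ℂ)) (1 + δ + (0 : ℝ) * I)).re +
      4 * (LSeries (fun n => (a n : ℂ)) (1 + δ + t * I)).re +
      (LSeries (fun n => (a n : ℂ)) (1 + δ + (2 * t : ℝ) * I)).re := by
    rw [Complex.add_re, Complex.add_re]
    congr 1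
    congr 1
    · rw [show (3 : ℂ) = ((3 : ℝ) : ℂ) by push_cast; rfl, Complex.re_ofReal_mul]
    · rw [show (4 : ℂ) = ((4 : ℝ) : ℂ) by push_cast; rfl, Complex.re_ofReal_mul]
  rw [e]
  refine h3.nonneg fun n => ?_
  have h4 := trig_341 (t * (0 - Real.log n))
  have h5 := bb_nonneg ha δ n
  have h6 : Real.cos (2 * t * (0 - Real.log n)) = Real.cos (2 * (t * (0 - Real.log n))) := by
    congr 1
    ring
  rw [h6, zero_mul, Real.cos_zero]
  have h7 : 3 * (bb a δ n * 1) + 4 * (bb a δ n * Real.cos (t * (0 - Real.log n))) +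
      bb a δ n * Real.cos (2 * (t * (0 - Real.log n))) = bb a δ n *
      (3 + 4 * Real.cos (t * (0 - Real.log n)) + Real.cos (2 * (t * (0 - Real.log n)))) := by
    ring
  rw [h7]
  exact mul_nonneg h5 h4

include ha hs in
theorem nonvan {Z E : ℂ → ℂ}
    (hZ : ∀ s : ℂ, 1 < s.re → HasDerivAt Z (-(Z s * LSeries (fun n => (a n : ℂ)) s)) s)
    (hZ0 : ∀ s : ℂ, 1 < s.re → Z s ≠ 0) (hE : Differentiable ℂ E)
    (hZE : ∀ s : ℂ, 1 < s.re → Z s = E s / (s - 1)) {t : ℝ} (ht : t ≠ 0) :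
    E (1 + t * I) ≠ 0 := by
  intro hE0
  set zt : ℝ → ℝ → ℂ := fun u δ => Z (1 + δ + u * I) with hzt
  set A : ℂ → ℂ := fun s => LSeries (fun n => (a n : ℂ)) s with hA
  have hd : ∀ u δ : ℝ, 0 < δ → HasDerivAt (zt u) (-(zt u δ * A (1 + δ + u * I))) δ := by
    intro u δ hδ
    have h1 := hZ (1 + δ + u * I) (by simp; exact hδ)
    have h2 : HasDerivAt (fun δ : ℝ => (1 + (δ : ℂ) + u * I)) 1 δ := by
      have := ((Complex.ofRealCLM.hasDerivAt (x := δ)).const_add 1).add_const (u * I)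
      simpa using this
    have h3 := HasDerivAt.scomp δ h1 h2
    rw [one_smul] at h3
    exact h3
  set Ψ : ℝ → ℂ := fun δ => zt 0 δ ^ 3 * zt t δ ^ 4 * zt (2 * t) δ with hΨ
  set B : ℝ → ℂ := fun δ => 3 * A (1 + δ + (0 : ℝ) * I) + 4 * A (1 + δ + t * I) +
      A (1 + δ + (2 * t : ℝ) * I) with hB
  have hdΨ : ∀ δ : ℝ, 0 < δ → HasDerivAt Ψ (-(Ψ δ * B δ)) δ := by
    intro δ hδ
    have h1 := (((hd 0 δ hδ).pow 3).mul ((hd t δ hδ).pow 4)).mul (hd (2 * t) δ hδ)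
    refine h1.congr_deriv ?_
    simp only [hΨ, hB, Pi.pow_apply, Pi.mul_apply]
    push_cast
    ring
  have hdN : ∀ δ : ℝ, 0 < δ → HasDerivAt (fun δ => ‖Ψ δ‖ ^ 2) (-(2 * ‖Ψ δ‖ ^ 2 * (B δ).re)) δ := by
    intro δ hδ
    have h1 := (hdΨ δ hδ).norm_sq
    refine h1.congr_deriv ?_
    rw [Complex.inner]
    have h2 : -(Ψ δ * B δ) * (starRingEnd ℂ) (Ψ δ) = -(((‖Ψ δ‖ ^ 2 : ℝ) : ℂ) * B δ) := by
      have h3 : (starRingEnd ℂ) (Ψ δ) * Ψ δ = ((‖Ψ δ‖ ^ 2 : ℝ) : ℂ) := by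
        rw [Complex.conj_mul']
        push_cast
        rfl
      rw [← h3]
      ring
    rw [h2, Complex.neg_re, Complex.re_ofReal_mul]
    ring
  have hanti : AntitoneOn (fun δ => ‖Ψ δ‖ ^ 2) (Ioi 0) := by
    refine antitoneOn_of_deriv_nonpos (convex_Ioi 0) (fun δ hδ =>
      (hdN δ hδ).continuousAt.continuousWithinAt) (fun δ hδ => ?_) fun δ hδ => ?_
    · rw [interior_Ioi] at hδ
      exact (hdN δ hδ).differentiableAt.differentiableWithinAt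
    · rw [interior_Ioi] at hδ
      rw [(hdN δ hδ).deriv]
      have h1 : 0 ≤ (B δ).re := re_341 ha hs hδ t
      have h2 : 0 ≤ 2 * ‖Ψ δ‖ ^ 2 * (B δ).re := by positivity
      linarith
  have hN1 : 0 < ‖Ψ 1‖ ^ 2 := by
    have h1 : Ψ 1 ≠ 0 := by
      refine mul_ne_zero (mul_ne_zero (pow_ne_zero _ ?_) (pow_ne_zero _ ?_)) ?_ <;>
        exact hZ0 _ (by simp)
    have := norm_pos_iff.2 h1
    positivity
  -- bounds near the line
  obtain ⟨M, hM⟩ := (isCompact_closedBall (0 : ℂ) (2 + 2 * |t|)).exists_bound_of_continuousOn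
    hE.continuous.continuousOn
  have hM0 : 0 ≤ M := (norm_nonneg _).trans (hM 0 (by simp; positivity))
  have hMu : ∀ u δ : ℝ, |u| ≤ 2 * |t| → 0 < δ → δ ≤ 1 → ‖E (1 + δ + u * I)‖ ≤ M := by
    intro u δ hu hδ hδ1
    refine hM _ ?_
    rw [mem_closedBall_zero_iff]
    calc ‖(1 + δ + u * I : ℂ)‖ ≤ ‖(1 + δ : ℂ)‖ + ‖(u * I : ℂ)‖ := norm_add_le _ _
      _ ≤ 2 + 2 * |t| := by
        have h1 : ‖(1 + δ : ℂ)‖ = 1 + δ := by
          rw [show (1 + δ : ℂ) = ((1 + δ : ℝ) : ℂ) by push_cast; rfl,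
            Complex.norm_of_nonneg (by linarith)]
        rw [h1, norm_mul, Complex.norm_I, mul_one, Complex.norm_real, Real.norm_eq_abs]
        linarith
  obtain ⟨L, hL0, hL⟩ : ∃ L : ℝ, 0 ≤ L ∧ ∀ᶠ δ : ℝ in 𝓝[>] 0, ‖E (1 + δ + t * I)‖ ≤ L * δ := by
    have h1 := (hE (1 + t * I)).hasDerivAt.isBigO_sub
    obtain ⟨L, hL0, hL⟩ := h1.exists_nonneg
    rw [Asymptotics.isBigOWith_iff] at hL
    have h2 : Tendsto (fun δ : ℝ => (1 + (δ : ℂ) + t * I)) (𝓝[>] 0) (𝓝 (1 + t * I)) := by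
      have h3 : Continuous fun δ : ℝ => (1 + (δ : ℂ) + t * I) := by fun_prop
      have h4 := (h3.tendsto 0).mono_left (nhdsWithin_le_nhds (s := Ioi 0))
      simpa using h4
    refine ⟨L, hL0, ?_⟩
    filter_upwards [h2.eventually hL, self_mem_nhdsWithin] with δ hδ hδ0
    rw [hE0, sub_zero, show (1 + (δ : ℂ) + t * I) - (1 + t * I) = (δ : ℂ) by ring,
      Complex.norm_of_nonneg (le_of_lt hδ0)] at hδ
    exact hδ
  have ht0 : 0 < |t| := abs_pos.2 ht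
  set Cc : ℝ := M ^ 3 * (L / |t|) ^ 4 * (M / (2 * |t|)) with hCc
  have hzn : ∀ u δ : ℝ, 0 < δ → ‖zt u δ‖ = ‖E (1 + δ + u * I)‖ / ‖(δ + u * I : ℂ)‖ := by
    intro u δ hδ
    rw [hzt]
    beta_reduce
    rw [hZE _ (by simp; exact hδ), norm_div, show (1 + (δ : ℂ) + u * I - 1) = δ + u * I by ring]
  have him : ∀ u δ : ℝ, |u| ≤ ‖(δ + u * I : ℂ)‖ := by
    intro u δ
    have := Complex.abs_im_le_norm (δ + u * I : ℂ)
    simpa using this
  have hfin : ∀ᶠ δ : ℝ in 𝓝[>] 0, ‖Ψ 1‖ ^ 2 ≤ (Cc * δ) ^ 2 := by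
    filter_upwards [hL, Ioc_mem_nhdsGT (zero_lt_one' ℝ)] with δ hδ1 hδ
    have hδ0 : 0 < δ := hδ.1
    have h1 := hanti (mem_Ioi.2 hδ0) (mem_Ioi.2 one_pos) hδ.2
    beta_reduce at h1
    refine h1.trans ?_
    refine pow_le_pow_left₀ (norm_nonneg _) ?_ 2
    have g0 : ‖zt 0 δ‖ ≤ M / δ := by
      rw [hzn 0 δ hδ0]
      have h2 := hMu 0 δ (by simp) hδ0 hδ.2
      have h3 : ‖((δ : ℂ) + (0 : ℝ) * I)‖ = δ := by
        rw [show ((δ : ℂ) + (0 : ℝ) * I) = (δ : ℂ) by push_cast; ring,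
          Complex.norm_of_nonneg hδ0.le]
      rw [h3]
      gcongr
    have g1 : ‖zt t δ‖ ≤ L * δ / |t| := by
      rw [hzn t δ hδ0]
      have h3 := him t δ
      gcongr
    have g2 : ‖zt (2 * t) δ‖ ≤ M / (2 * |t|) := by
      rw [hzn (2 * t) δ hδ0]
      have h2 := hMu (2 * t) δ (by rw [abs_mul, abs_of_pos (by norm_num : (0 : ℝ) < 2)])
        hδ0 hδ.2
      have h3 := him (2 * t) δ
      rw [abs_mul, abs_of_pos (by norm_num : (0 : ℝ) < 2)] at h3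
      gcongr
    have h4 : ‖Ψ δ‖ = ‖zt 0 δ‖ ^ 3 * ‖zt t δ‖ ^ 4 * ‖zt (2 * t) δ‖ := by
      simp only [hΨ]
      rw [norm_mul, norm_mul, norm_pow, norm_pow]
    rw [h4]
    calc ‖zt 0 δ‖ ^ 3 * ‖zt t δ‖ ^ 4 * ‖zt (2 * t) δ‖
        ≤ (M / δ) ^ 3 * (L * δ / |t|) ^ 4 * (M / (2 * |t|)) := by gcongr
      _ = Cc * δ := by
        rw [hCc]
        field_simp
  have hlim : Tendsto (fun δ : ℝ => (Cc * δ) ^ 2) (𝓝[>] 0) (𝓝 0) := by
    have h3 : Continuous fun δ : ℝ => (Cc * δ) ^ 2 := by fun_prop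
    have h4 := (h3.tendsto 0).mono_left (nhdsWithin_le_nhds (s := Ioi 0))
    simpa using h4
  have h5 := ge_of_tendsto hlim hfin
  linarith

end

end Pool.Agent.H72.SM
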