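import Pool.Agent.H20.SM.TP
import Pool.Agent.H37.CV.All
import Pool.Agent.H63.HK.DS
import Pool.Agent.H72.SM.PNg

/-!
# Row PNF: lower bound in the prime ideal theorem
-/

set_option autoImplicit false

open NumberField NumberField.InfinitePlace Complex Filter Topology

namespace Pool.Agent.H72.SM

open Pool.Agent.H37.CV (a_ZK nm rho)
open Pool.Agent.H30.BV (cv DS TX wx WX NX)
open Pool.Agent.H20.SM
open Pool.Agent.H27.LS (hat)

theorem cv_one (n : ℕ) : cv (1 : DirichletCharacter ℂ 1) n = 1 := by
  unfold cv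
  rw [Subsingleton.elim ((n : ℕ) : ZMod 1) 1]
  exact map_one _

/-- (PNF) the prime ideal theorem. -/
theorem pf_PNF (hCFF : T_CFF) : T_PNF := by
  intro F _ _ _
  obtain ⟨hg, hsA, hC⟩ := hCFF F
  set a : ℕ → ℝ := fun n => ArithmeticFunction.vonMangoldt n * gF F n with ha_def
  have ha : ∀ n, 0 ≤ a n := fun n =>
    mul_nonneg ArithmeticFunction.vonMangoldt_nonneg (hg n).1
  set Z : ℂ → ℂ := LSeries (fun n => (aF F n : ℂ)) with hZ_def
  have hkey : ∀ s : ℂ, 1 < s.re → LSeriesSummable (fun n => (a n : ℂ)) s ∧ Z s ≠ 0 ∧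
      LSeries (fun n => (aF F n : ℂ) * ((Real.log n ^ 1 : ℝ) : ℂ)) s =
        Z s * LSeries (fun n => (a n : ℂ)) s := by
    intro s hs
    obtain ⟨h1, h2, h3⟩ := hC 1 (1 : DirichletCharacter ℂ 1) s le_rfl hs
    have e1 : (fun n : ℕ => (ArithmeticFunction.vonMangoldt n : ℂ) * gc F
        (1 : DirichletCharacter ℂ 1) n * ((Real.log n ^ 0 : ℝ) : ℂ)) =
        fun n => (a n : ℂ) := by
      funext n
      simp only [ha_def, gc, cv_one, pow_zero, Complex.ofReal_one, mul_one, Complex.ofReal_mul]
    have e2 : ∀ k : ℕ, (fun n : ℕ => ac F (1 : DirichletCharacter ℂ 1) n *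
        ((Real.log n ^ k : ℝ) : ℂ)) = fun n => (aF F n : ℂ) * ((Real.log n ^ k : ℝ) : ℂ) := by
      intro k
      funext n
      simp only [ac, cv_one, mul_one]
    have e3 : (fun n : ℕ => (aF F n : ℂ) * ((Real.log n ^ 0 : ℝ) : ℂ)) =
        fun n => (aF F n : ℂ) := by
      funext n
      simp
    have h4 := (h1 0).2
    rw [e1] at h4
    unfold DS at h2 h3
    rw [e2, e3] at h2
    rw [e2, e2, e3, e1] at h3
    exact ⟨h4, h2, h3⟩
  have hs : ∀ s : ℂ, 1 < s.re → LSeriesSummable (fun n => (a n : ℂ)) s := fun s h => (hkey s h).1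
  have habs : LSeries.abscissaOfAbsConv (fun n => (aF F n : ℂ)) ≤ 1 := by
    refine LSeries.abscissaOfAbsConv_le_of_forall_lt_LSeriesSummable' fun y hy => ?_
    refine hsA y ?_
    have : (1 : ℝ) < y := by exact_mod_cast hy
    simpa using this
  have hZd : ∀ s : ℂ, 1 < s.re →
      HasDerivAt Z (-(Z s * LSeries (fun n => (a n : ℂ)) s)) s := by
    intro s hs
    have h1 : LSeries.abscissaOfAbsConv (fun n => (aF F n : ℂ)) < s.re :=
      lt_of_le_of_lt habs (by exact_mod_cast hs)
    have h2 := LSeries_hasDerivAt h1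
    refine h2.congr_deriv ?_
    rw [← (hkey s hs).2.2]
    congr 1
    refine LSeries_congr (fun {n} _ => ?_) s
    rw [LSeries.logMul, pow_one, Complex.natCast_log, mul_comm]
  obtain ⟨E, hE, hES, hE1, _⟩ := a_ZK F
  have hZE : ∀ s : ℂ, 1 < s.re → Z s = E s / (s - 1) := by
    intro s hs
    have h1 : s - 1 ≠ 0 := by
      intro h
      have := congrArg Complex.re h
      simp at this
      linarith
    rw [eq_div_iff h1, (hES s hs).2, mul_comm]
    congr 1
    have h2 := (Pool.Agent.H63.HK.ds F s hs).2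
    unfold dedekindZeta at h2
    have h3 : Z s = LSeries (fun n ↦ Nat.card {I : Ideal (𝓞 F) // Ideal.absNorm I = n}) s := by
      rw [hZ_def]
      refine LSeries_congr (fun {n} _ => ?_) s
      unfold aF
      rfl
    rw [h3, h2]
    refine tsum_congr fun I => ?_
    unfold nm
    rfl
  -- non-vanishing
  have hnv : ∀ s : ℂ, 1 ≤ s.re → E s ≠ 0 := by
    intro s hs1
    rcases lt_or_eq_of_le hs1 with h | h
    · intro h0
      apply (hkey s h).2.1
      rw [hZE s h, h0, zero_div]
    · by_cases h2 : s.im = 0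
      · have h3 : s = 1 := by
          apply Complex.ext
          · simpa using h.symm
          · simpa using h2
        rw [h3, hE1]
        have h4 : (0 : ℝ) < rho F := dedekindZeta_residue_pos F
        exact_mod_cast h4.ne'
      · have h3 := nonvan ha hs hZd (fun s h => (hkey s h).2.1) hE hZE h2
        have h4 : (1 + s.im * I : ℂ) = s := by
          apply Complex.ext
          · simpa using h
          · simp
        rwa [h4] at h3
  set H : ℂ → ℂ := fun s => -(deriv E s / E s) with hH_def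
  have hHc : ContinuousOn H {s | 1 ≤ s.re} := by
    refine ContinuousOn.neg (ContinuousOn.div ?_ hE.continuous.continuousOn hnv)
    have h1 : Differentiable ℂ (deriv E) := by
      exact hE.deriv
    exact h1.continuous.continuousOn
  have hA : ∀ s : ℂ, 1 < s.re → LSeries (fun n => (a n : ℂ)) s = H s + 1 / (s - 1) := by
    intro s hs
    have h1 : s - 1 ≠ 0 := by
      intro h
      have := congrArg Complex.re h
      simp at this
      linarith
    have h2 := hZd s hs
    have h3 : HasDerivAt (fun s => E s / (s - 1)) ((deriv E s * (s - 1) - E s * 1) /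
        (s - 1) ^ 2) s :=
      (hE s).hasDerivAt.div ((hasDerivAt_id s).sub_const 1) h1
    have h4 : Z =ᶠ[𝓝 s] fun s => E s / (s - 1) := by
      have h5 : {s : ℂ | 1 < s.re} ∈ 𝓝 s :=
        (isOpen_lt continuous_const Complex.continuous_re).mem_nhds hs
      filter_upwards [h5] with w hw
      exact hZE w hw
    have h5 := (h3.congr_of_eventuallyEq h4).unique h2
    have h6 := hnv s hs.le
    rw [hZE s hs] at h5
    rw [hH_def]
    beta_reduce
    have h7 : LSeries (fun n => (a n : ℂ)) s = -((deriv E s * (s - 1) - E s * 1) /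
        (s - 1) ^ 2) * ((s - 1) / E s) := by
      rw [h5]
      field_simp
    rw [h7]
    field_simp
    ring
  obtain ⟨c, x₀, hc, hx⟩ := tauber ha hs hHc hA
  refine ⟨Real.exp (-(1 / 2)) / 2 * c, Real.exp (max x₀ 1), by positivity, fun X hX => ?_⟩
  have hX0 : 0 < X := (Real.exp_pos _).trans_le hX
  have hlog : max x₀ 1 ≤ Real.log X := by
    rw [← Real.log_exp (max x₀ 1)]
    exact Real.log_le_log (Real.exp_pos _) hX
  have hx0 : x₀ ≤ Real.log X := (le_max_left _ _).trans hlog
  have hx1 : 1 ≤ Real.log X := (le_max_right _ _).trans hlog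
  have hmem : ∀ n : ℕ, |Real.log X - Real.log n| ≤ 1 / 2 →
      n ≠ 0 ∧ X * Real.exp (-(1 / 2)) ≤ n ∧ (n : ℝ) ≤ X * Real.exp (1 / 2) := by
    intro n hn
    have hn0 : n ≠ 0 := by
      rintro rfl
      simp at hn
      rw [abs_of_pos (by linarith)] at hn
      linarith
    have hn1 : (0 : ℝ) < n := by positivity
    rw [abs_le] at hn
    refine ⟨hn0, ?_, ?_⟩
    · calc X * Real.exp (-(1 / 2)) = Real.exp (Real.log X - 1 / 2) := by
            rw [sub_eq_add_neg, Real.exp_add, Real.exp_log hX0]
        _ ≤ Real.exp (Real.log n) := Real.exp_le_exp.2 (by linarith [hn.2])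
        _ = n := Real.exp_log hn1
    · calc (n : ℝ) = Real.exp (Real.log n) := (Real.exp_log hn1).symm
        _ ≤ Real.exp (Real.log X + 1 / 2) := Real.exp_le_exp.2 (by linarith [hn.1])
        _ = X * Real.exp (1 / 2) := by rw [Real.exp_add, Real.exp_log hX0]
  have he : Real.exp (1 / 2) ≤ 3 := by
    have h1 : Real.exp (1 / 2) ≤ Real.exp 1 := Real.exp_le_exp.2 (by norm_num)
    have h2 := Real.exp_one_lt_d9
    linarith
  have h1 := hx (Real.log X) hx0 (Finset.Icc 1 (NX X)) (fun n hn => by
    obtain ⟨g1, _, g3⟩ := hmem n hn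
    rw [Finset.mem_Icc]
    refine ⟨Nat.one_le_iff_ne_zero.2 g1, ?_⟩
    have h2 : (n : ℝ) ≤ 3 * X := g3.trans (by nlinarith)
    have h3 : (n : ℝ) ≤ (NX X : ℝ) := h2.trans (Nat.le_ceil _)
    exact_mod_cast h3)
  have hwg : ∀ n ∈ Finset.Icc 1 (NX X), 0 ≤ wx X n * gF F n := by
    intro n _
    unfold wx
    exact mul_nonneg (mul_nonneg ArithmeticFunction.vonMangoldt_nonneg
      (Pool.Agent.H27.LS.hat_nonneg _)) (hg n).1
  calc Real.exp (-(1 / 2)) / 2 * c * X = (X * Real.exp (-(1 / 2)) / 2) * c := by ring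
    _ ≤ (X * Real.exp (-(1 / 2)) / 2) * ∑ n ∈ (Finset.Icc 1 (NX X)).filter
          (fun n : ℕ => |Real.log X - Real.log n| ≤ 1 / 2), a n / n := by gcongr
    _ = ∑ n ∈ (Finset.Icc 1 (NX X)).filter
          (fun n : ℕ => |Real.log X - Real.log n| ≤ 1 / 2),
          (X * Real.exp (-(1 / 2)) / 2) * (a n / n) := Finset.mul_sum _ _ _
    _ ≤ ∑ n ∈ (Finset.Icc 1 (NX X)).filter
          (fun n : ℕ => |Real.log X - Real.log n| ≤ 1 / 2), wx X n * gF F n := by
        refine Finset.sum_le_sum fun n hn => ?_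
        rw [Finset.mem_filter] at hn
        obtain ⟨g1, g2, _⟩ := hmem n hn.2
        have hn1 : (0 : ℝ) < n := by positivity
        have h3 : 1 / 2 ≤ hat (Real.log (n / X)) := by
          unfold hat
          refine le_max_of_le_right ?_
          rw [Real.log_div hn1.ne' hX0.ne', abs_sub_comm]
          linarith [hn.2]
        have h4 : X * Real.exp (-(1 / 2)) / n ≤ 1 := by
          rw [div_le_one hn1]
          exact g2
        have h5 := ha n
        have h6 : wx X n * gF F n = a n * hat (Real.log (n / X)) := by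
          unfold wx
          rw [ha_def]
          ring
        rw [h6]
        calc (X * Real.exp (-(1 / 2)) / 2) * (a n / n) =
              a n * ((X * Real.exp (-(1 / 2)) / n) * (1 / 2)) := by ring
          _ ≤ a n * (1 * hat (Real.log (n / X))) := by gcongr
          _ = _ := by rw [one_mul]
    _ ≤ _ := Finset.sum_le_sum_of_subset_of_nonneg (Finset.filter_subset _ _)
        fun n hn _ => hwg n hn

end Pool.Agent.H72.SM
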