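import Pool.Agent.H30.BV.Targets

/-!
# A Tauberian lower bound (Fejer kernels): preparation for the row PNF
-/

set_option autoImplicit false

open Real Complex MeasureTheory Set Filter Topology

namespace Pool.Agent.H72.SM

/-- the Fejer kernel -/
noncomputable def kk (T u : ℝ) : ℝ := 2 * ∫ t in (0 : ℝ)..T, (1 - t / T) * Real.cos (t * u)

theorem int_lin {T : ℝ} (hT : 0 < T) : ∫ t in (0 : ℝ)..T, (1 - t / T) = T / 2 := by
  have h : ∀ t ∈ uIcc 0 T, HasDerivAt (fun t : ℝ => t - t ^ 2 / (2 * T)) (1 - t / T) t := by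
    intro t _
    have h1 := (hasDerivAt_id t).sub (((hasDerivAt_id t).pow 2).div_const (2 * T))
    refine h1.congr_deriv ?_
    simp only [id, Nat.cast_ofNat]
    field_simp
    ring
  rw [intervalIntegral.integral_eq_sub_of_hasDerivAt h
    (Continuous.intervalIntegrable (by fun_prop) _ _)]
  field_simp
  ring

theorem kk_eq {T u : ℝ} (hT : 0 < T) (hu : u ≠ 0) :
    kk T u = 2 * (1 - Real.cos (T * u)) / (T * u ^ 2) := by
  have h : ∀ t ∈ uIcc 0 T, HasDerivAt (fun t : ℝ => (1 - t / T) * (Real.sin (t * u) / u) -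
      Real.cos (t * u) / (T * u ^ 2)) ((1 - t / T) * Real.cos (t * u)) t := by
    intro t _
    have h0 : HasDerivAt (fun t : ℝ => t * u) u t := by
      simpa using (hasDerivAt_id t).mul_const u
    have h1 : HasDerivAt (fun t : ℝ => 1 - t / T) (-(1 / T)) t := by
      simpa using ((hasDerivAt_id t).div_const T).const_sub 1
    have h2 := (h1.mul (h0.sin.div_const u)).sub (h0.cos.div_const (T * u ^ 2))
    refine h2.congr_deriv ?_
    field_simp
    ring
  rw [kk, intervalIntegral.integral_eq_sub_of_hasDerivAt h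
    (Continuous.intervalIntegrable (by fun_prop) _ _)]
  simp
  field_simp
  ring

theorem kk_zero {T : ℝ} (hT : 0 < T) : kk T 0 = T := by
  unfold kk
  simp only [mul_zero, Real.cos_zero, mul_one]
  rw [int_lin hT]
  ring

theorem kk_nonneg {T : ℝ} (hT : 0 < T) (u : ℝ) : 0 ≤ kk T u := by
  by_cases hu : u = 0
  · rw [hu, kk_zero hT]
    exact hT.le
  · rw [kk_eq hT hu]
    have := Real.cos_le_one (T * u)
    have h2 : 0 ≤ 1 - Real.cos (T * u) := by linarith
    positivity

theorem kk_le {T : ℝ} (hT : 0 < T) (u : ℝ) : kk T u ≤ T := by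
  have h1 : ∫ t in (0 : ℝ)..T, (1 - t / T) * Real.cos (t * u) ≤ ∫ t in (0 : ℝ)..T, (1 - t / T) := by
    refine intervalIntegral.integral_mono_on hT.le
      (Continuous.intervalIntegrable (by fun_prop) _ _)
      (Continuous.intervalIntegrable (by fun_prop) _ _) fun t ht => ?_
    have h2 : 0 ≤ 1 - t / T := by
      rw [sub_nonneg, div_le_one hT]
      exact ht.2
    exact mul_le_of_le_one_right h2 (Real.cos_le_one _)
  rw [int_lin hT] at h1
  unfold kk
  linarith

theorem kk_sq_le {T : ℝ} (hT : 0 < T) (u : ℝ) : kk T u * u ^ 2 ≤ 4 / T := by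
  by_cases hu : u = 0
  · rw [hu]
    simp
    positivity
  · rw [kk_eq hT hu]
    have h1 := Real.neg_one_le_cos (T * u)
    have h2 : 2 * (1 - Real.cos (T * u)) / (T * u ^ 2) * u ^ 2 =
        2 * (1 - Real.cos (T * u)) / T := by field_simp
    rw [h2]
    gcongr
    linarith

theorem kk_lower {T u : ℝ} (hT : 0 < T) (hu : |u| ≤ 1 / T) : T / 2 ≤ kk T u := by
  have h1 : ∫ t in (0 : ℝ)..T, (1 - t / T) * (1 / 2) ≤
      ∫ t in (0 : ℝ)..T, (1 - t / T) * Real.cos (t * u) := by
    refine intervalIntegral.integral_mono_on hT.le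
      (Continuous.intervalIntegrable (by fun_prop) _ _)
      (Continuous.intervalIntegrable (by fun_prop) _ _) fun t ht => ?_
    have h2 : 0 ≤ 1 - t / T := by
      rw [sub_nonneg, div_le_one hT]
      exact ht.2
    refine mul_le_mul_of_nonneg_left ?_ h2
    have h3 := Real.one_sub_sq_div_two_le_cos (x := t * u)
    have h4 : (t * u) ^ 2 ≤ 1 := by
      have h5 : |t * u| ≤ 1 := by
        rw [abs_mul, abs_of_nonneg ht.1]
        calc t * |u| ≤ T * (1 / T) := mul_le_mul ht.2 hu (abs_nonneg _) hT.le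
          _ = 1 := by field_simp
      rw [← sq_abs]
      exact pow_le_one₀ (abs_nonneg _) h5
    linarith
  rw [intervalIntegral.integral_mul_const, int_lin hT] at h1
  unfold kk
  linarith

end Pool.Agent.H72.SM
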