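import Pool.Agent.H72.SM.PNa

/-!
# A Tauberian lower bound: the formulas
-/

set_option autoImplicit false

open Real Complex MeasureTheory Set Filter Topology

namespace Pool.Agent.H72.SM

theorem continuous_kk (T : ℝ) : Continuous (kk T) := by
  unfold kk
  refine continuous_const.mul ?_
  exact intervalIntegral.continuous_parametric_intervalIntegral_of_continuous'
    (by fun_prop) _ _

theorem kk_le_quot {T : ℝ} (hT : 0 < T) (u : ℝ) : kk T u ≤ (T + 4 / T) * (1 + u ^ 2)⁻¹ := by
  have h1 : 0 < 1 + u ^ 2 := by positivity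
  rw [← div_eq_mul_inv, le_div_iff₀ h1]
  have := kk_le hT u
  have := kk_sq_le hT u
  nlinarith

theorem integrable_kk {T : ℝ} (hT : 0 < T) (x : ℝ) : Integrable fun u : ℝ => kk T (x - u) := by
  have h1 : Integrable (kk T) := by
    refine (integrable_inv_one_add_sq.const_mul (T + 4 / T)).mono'
      (continuous_kk T).aestronglyMeasurable (Eventually.of_forall fun u => ?_)
    rw [Real.norm_of_nonneg (kk_nonneg hT u)]
    exact kk_le_quot hT u
  exact h1.comp_sub_left x

/-- the main integral -/
noncomputable def JJ (T δ x : ℝ) : ℝ := ∫ u in Ioi (0 : ℝ), Real.exp (-(δ * u)) * kk T (x - u)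

theorem JJ_int {T : ℝ} (hT : 0 < T) {δ : ℝ} (hδ : 0 < δ) (x : ℝ) :
    IntegrableOn (fun u : ℝ => Real.exp (-(δ * u)) * kk T (x - u)) (Ioi 0) := by
  refine Integrable.mono' (integrable_kk hT x).integrableOn
    (Continuous.aestronglyMeasurable ?_) ?_
  · have := continuous_kk T
    fun_prop
  · refine (ae_restrict_iff' measurableSet_Ioi).2 (Eventually.of_forall fun u hu => ?_)
    have hu0 : 0 < u := hu
    have h1 := kk_nonneg hT (x - u)
    rw [Real.norm_of_nonneg (by positivity)]
    have h2 : Real.exp (-(δ * u)) ≤ 1 := Real.exp_le_one_iff.2 (by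
      have : 0 ≤ δ * u := by positivity
      linarith)
    exact mul_le_of_le_one_left h1 h2

theorem JJ_le {T : ℝ} (hT : 0 < T) {δ : ℝ} (hδ : 0 < δ) (x : ℝ) :
    JJ T δ x ≤ (T + 4 / T) * Real.pi := by
  have h3 : ∫ u : ℝ, kk T u ≤ (T + 4 / T) * Real.pi := by
    rw [← integral_univ_inv_one_add_sq, ← integral_const_mul]
    refine integral_mono ?_ (integrable_inv_one_add_sq.const_mul _) (kk_le_quot hT)
    simpa using integrable_kk hT 0 |>.comp_sub_left 0
  calc JJ T δ x ≤ ∫ u in Ioi (0 : ℝ), kk T (x - u) := by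
        refine setIntegral_mono_on (JJ_int hT hδ x) (integrable_kk hT x).integrableOn
          measurableSet_Ioi fun u hu => ?_
        have hu0 : 0 < u := hu
        have h1 := kk_nonneg hT (x - u)
        have h2 : Real.exp (-(δ * u)) ≤ 1 := Real.exp_le_one_iff.2 (by
          have : 0 ≤ δ * u := by positivity
          linarith)
        exact mul_le_of_le_one_left h1 h2
    _ ≤ ∫ u : ℝ, kk T (x - u) := by
        refine setIntegral_le_integral (integrable_kk hT x)
          (Eventually.of_forall fun u => kk_nonneg hT _)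
    _ = ∫ u : ℝ, kk T u := integral_sub_left_eq_self (kk T) volume x
    _ ≤ _ := h3

theorem le_JJ {T : ℝ} (hT : 1 ≤ T) {δ : ℝ} (hδ : 0 < δ) {x : ℝ} (hx : 1 ≤ x) :
    Real.exp (-(δ * (x + 1))) ≤ JJ T δ x := by
  have hT0 : 0 < T := by linarith
  have hT1 : 1 / T ≤ 1 := by
    rw [div_le_one hT0]
    exact hT
  have hT2 : 0 < 1 / T := by positivity
  have hsub : Ioc (x - 1 / T) (x + 1 / T) ⊆ Ioi 0 := fun u hu => by
    have := hu.1
    show 0 < u
    linarith
  calc Real.exp (-(δ * (x + 1))) =
        ∫ _u in Ioc (x - 1 / T) (x + 1 / T), Real.exp (-(δ * (x + 1))) * (T / 2) := by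
        rw [setIntegral_const, smul_eq_mul, Measure.real, Real.volume_Ioc,
          ENNReal.toReal_ofReal (by linarith)]
        field_simp
        ring
    _ ≤ ∫ u in Ioc (x - 1 / T) (x + 1 / T), Real.exp (-(δ * u)) * kk T (x - u) := by
        refine setIntegral_mono_on ?_ ((JJ_int hT0 hδ x).mono_set hsub) measurableSet_Ioc
          fun u hu => ?_
        · exact integrableOn_const (by
            rw [Real.volume_Ioc]
            exact ENNReal.ofReal_ne_top)
        · have h1 : |x - u| ≤ 1 / T := by
            rw [abs_le]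
            constructor
            · linarith [hu.2]
            · linarith [hu.1]
          have h2 := kk_lower hT0 h1
          have h3 : Real.exp (-(δ * (x + 1))) ≤ Real.exp (-(δ * u)) := by
            refine Real.exp_le_exp.2 ?_
            have h4 : u ≤ x + 1 := by linarith [hu.2]
            nlinarith
          gcongr
    _ ≤ JJ T δ x := by
        refine setIntegral_mono_set (JJ_int hT0 hδ x) ?_ (Eventually.of_forall hsub)
        refine (ae_restrict_iff' measurableSet_Ioi).2 (Eventually.of_forall fun u _ => ?_)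
        have h1 := kk_nonneg hT0 (x - u)
        positivity

/-- the formula for the main integral -/
theorem JJ_eq {T : ℝ} (hT : 0 < T) {δ : ℝ} (hδ : 0 < δ) (x : ℝ) :
    JJ T δ x = 2 * ∫ t in (0 : ℝ)..T, (1 - t / T) *
      (cexp ((t * x : ℝ) * I) * (1 / ((δ : ℂ) + t * I))).re := by
  have hin : ∀ t : ℝ, (cexp ((t * x : ℝ) * I) * (1 / ((δ : ℂ) + t * I))).re =
      ∫ u in Ioi (0 : ℝ), Real.exp (-(δ * u)) * Real.cos (t * (x - u)) := by
    intro t
    have ha : (-((δ : ℂ) + t * I)).re < 0 := by
      simp
      exact hδ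
    have h1 := integral_exp_mul_complex_Ioi ha 0
    have h2 : (∫ u in Ioi (0 : ℝ), cexp ((t * x : ℝ) * I) * cexp (-((δ : ℂ) + t * I) * u)) =
        cexp ((t * x : ℝ) * I) * (1 / ((δ : ℂ) + t * I)) := by
      rw [integral_const_mul, h1, Complex.ofReal_zero, mul_zero, Complex.exp_zero,
        neg_div_neg_eq]
    rw [← h2]
    have hi : IntegrableOn (fun u : ℝ => cexp ((t * x : ℝ) * I) *
        cexp (-((δ : ℂ) + t * I) * u)) (Ioi 0) :=
      (integrableOn_exp_mul_complex_Ioi ha 0).const_mul _
    have h3 : (∫ u in Ioi (0 : ℝ), cexp ((t * x : ℝ) * I) *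
        cexp (-((δ : ℂ) + t * I) * u)).re = ∫ u in Ioi (0 : ℝ), (cexp ((t * x : ℝ) * I) *
        cexp (-((δ : ℂ) + t * I) * u)).re := (integral_re hi).symm
    rw [h3]
    refine setIntegral_congr_fun measurableSet_Ioi fun u _ => ?_
    beta_reduce
    rw [← Complex.exp_add, Complex.exp_re]
    congr 1
    · congr 1
      simp
    · congr 1
      simp
      ring
  simp only [hin, JJ, kk]
  have e1 : ∀ u : ℝ, Real.exp (-(δ * u)) * (2 * ∫ t in (0 : ℝ)..T, (1 - t / T) *
      Real.cos (t * (x - u))) = ∫ t in Ioc (0 : ℝ) T, 2 * (Real.exp (-(δ * u)) * ((1 - t / T) *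
        Real.cos (t * (x - u)))) := by
    intro u
    rw [intervalIntegral.integral_of_le hT.le, integral_const_mul, integral_const_mul]
    ring
  simp only [e1]
  rw [integral_integral_swap]
  · rw [intervalIntegral.integral_of_le hT.le, ← integral_const_mul]
    congr 1
    funext t
    rw [← integral_const_mul, ← integral_const_mul]
    congr 1
    funext u
    ring
  · have h1 : Integrable (fun u : ℝ => Real.exp (-(δ * u))) (volume.restrict (Ioi 0)) := by
      have h := exp_neg_integrableOn_Ioi 0 hδ
      refine h.congr_fun (fun u _ => ?_) measurableSet_Ioi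
      beta_reduce
      congr 1
      ring
    have h2 : Integrable (fun t : ℝ => (2 : ℝ)) (volume.restrict (Ioc 0 T)) := by
      exact integrableOn_const (by
            rw [Real.volume_Ioc]
            exact ENNReal.ofReal_ne_top)
    refine (h1.mul_prod h2).mono' (Continuous.aestronglyMeasurable (by
      unfold Function.uncurry
      fun_prop)) ?_
    rw [Measure.prod_restrict]
    refine (ae_restrict_iff' (measurableSet_Ioi.prod measurableSet_Ioc)).2
      (Eventually.of_forall fun p hp => ?_)
    have hp2 := hp.2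
    simp only [Function.uncurry]
    rw [norm_mul, norm_mul, norm_mul, Real.norm_of_nonneg (Real.exp_pos _).le,
      Real.norm_of_nonneg (by norm_num : (0 : ℝ) ≤ 2)]
    have h3 : ‖1 - p.2 / T‖ ≤ 1 := by
      rw [Real.norm_eq_abs, abs_le]
      have h4 : p.2 / T ≤ 1 := by
        rw [div_le_one hT]
        exact hp2.2
      have h5 : 0 ≤ p.2 / T := div_nonneg hp2.1.le hT.le
      constructor <;> linarith
    have h4 : ‖Real.cos (p.2 * (x - p.1))‖ ≤ 1 := Real.abs_cos_le_one _
    have h5 : ‖1 - p.2 / T‖ * ‖Real.cos (p.2 * (x - p.1))‖ ≤ 1 :=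
      mul_le_one₀ h3 (norm_nonneg _) h4
    have h6 := Real.exp_pos (-(δ * p.1))
    nlinarith

end Pool.Agent.H72.SM
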