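import Pool.Agent.H72.SM.PNb

/-!
# A Tauberian lower bound: the sum
-/

set_option autoImplicit false

open Real Complex MeasureTheory Set Filter Topology

namespace Pool.Agent.H72.SM

/-- the terms -/
noncomputable def bb (a : ℕ → ℝ) (δ : ℝ) (n : ℕ) : ℝ := a n * (n : ℝ) ^ (-(1 + δ))

/-- the sum -/
noncomputable def SS (a : ℕ → ℝ) (T δ x : ℝ) : ℝ := ∑' n : ℕ, bb a δ n * kk T (x - Real.log n)

section

variable {a : ℕ → ℝ} (ha : ∀ n, 0 ≤ a n)
  (hs : ∀ s : ℂ, 1 < s.re → LSeriesSummable (fun n => (a n : ℂ)) s)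

include ha in
theorem bb_nonneg (δ : ℝ) (n : ℕ) : 0 ≤ bb a δ n := mul_nonneg (ha n) (by positivity)

include ha in
theorem bb_norm {δ : ℝ} (hδ : 0 < δ) (t : ℝ) (n : ℕ) :
    ‖LSeries.term (fun n => (a n : ℂ)) (1 + δ + t * I) n‖ = bb a δ n := by
  rw [LSeries.norm_term_eq, bb]
  by_cases hn : n = 0
  · rw [if_pos hn, hn]
    rw [Nat.cast_zero, Real.zero_rpow (by linarith : -(1 + δ) ≠ 0), mul_zero]
  · rw [if_neg hn, Complex.norm_of_nonneg (ha n)]
    have : (1 + (δ : ℂ) + t * I).re = 1 + δ := by simp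
    rw [this, Real.rpow_neg (Nat.cast_nonneg n)]
    ring

include ha hs in
theorem bb_summable {δ : ℝ} (hδ : 0 < δ) : Summable (bb a δ) := by
  have h := hs (1 + δ + (0 : ℝ) * I) (by simp; exact hδ)
  have h2 := h.norm
  refine h2.congr fun n => ?_
  exact bb_norm ha hδ 0 n

include ha in
theorem term_re {δ : ℝ} (hδ : 0 < δ) (x t : ℝ) (n : ℕ) :
    (cexp ((t * x : ℝ) * I) * LSeries.term (fun n => (a n : ℂ)) (1 + δ + t * I) n).re =
      bb a δ n * Real.cos (t * (x - Real.log n)) := by
  by_cases hn : n = 0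
  · rw [hn]
    rw [LSeries.term_zero, bb, Nat.cast_zero, Real.zero_rpow (by linarith : -(1 + δ) ≠ 0)]
    simp
  · have hn0 : (0 : ℝ) < n := by positivity
    rw [LSeries.term_of_ne_zero hn, div_eq_mul_inv, ← Complex.cpow_neg,
      show ((n : ℕ) : ℂ) = ((n : ℝ) : ℂ) by push_cast; rfl,
      Complex.cpow_def_of_ne_zero (ofReal_ne_zero.2 hn0.ne'), ← Complex.ofReal_log hn0.le]
    have e1 : cexp (((Real.log n : ℝ) : ℂ) * -(1 + δ + t * I)) =
        (((n : ℝ) ^ (-(1 + δ)) : ℝ) : ℂ) * cexp (-((t * Real.log n : ℝ) * I)) := by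
      rw [Real.rpow_def_of_pos hn0, Complex.ofReal_exp, ← Complex.exp_add]
      congr 1
      push_cast
      ring
    rw [e1]
    have e2 : cexp ((t * x : ℝ) * I) * ((a n : ℂ) * ((((n : ℝ) ^ (-(1 + δ)) : ℝ) : ℂ) *
        cexp (-((t * Real.log n : ℝ) * I)))) =
        ((a n * (n : ℝ) ^ (-(1 + δ)) : ℝ) : ℂ) * cexp ((t * (x - Real.log n) : ℝ) * I) := by
      have e3 : cexp ((t * (x - Real.log n) : ℝ) * I) = cexp ((t * x : ℝ) * I) *
          cexp (-((t * Real.log n : ℝ) * I)) := by
        rw [← Complex.exp_add]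
        congr 1
        push_cast
        ring
      rw [e3]
      push_cast
      ring
    rw [e2, Complex.re_ofReal_mul, Complex.exp_ofReal_mul_I_re, bb]

include ha hs in
theorem SS_eq {T : ℝ} (hT : 0 < T) {δ : ℝ} (hδ : 0 < δ) (x : ℝ) :
    (Summable fun n => bb a δ n * kk T (x - Real.log n)) ∧
    SS a T δ x = 2 * ∫ t in (0 : ℝ)..T, (1 - t / T) *
      (cexp ((t * x : ℝ) * I) * LSeries (fun n => (a n : ℂ)) (1 + δ + t * I)).re := by
  have hb := bb_summable ha hs hδ
  have hF := hasSum_integral_of_summable_integral_norm (μ := volume.restrict (Ioc 0 T))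
    (F := fun (n : ℕ) (t : ℝ) => (1 - t / T) * (bb a δ n * Real.cos (t * (x - Real.log n))))
    (fun n => by
      have : Continuous fun t : ℝ => (1 - t / T) *
        (bb a δ n * Real.cos (t * (x - Real.log n))) := by fun_prop
      exact (this.integrableOn_Icc (a := 0) (b := T)).mono_set Ioc_subset_Icc_self)
    (by
      refine Summable.of_nonneg_of_le (fun n => integral_nonneg fun t => norm_nonneg _)
        (fun n => ?_) (hb.mul_left T)
      have h1 : ∫ t in Ioc 0 T, ‖(1 - t / T) * (bb a δ n * Real.cos (t * (x - Real.log n)))‖ ≤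
          ∫ _t in Ioc 0 T, bb a δ n := by
        refine setIntegral_mono_on ?_ ?_ measurableSet_Ioc fun t ht => ?_
        · have : Continuous fun t : ℝ => ‖(1 - t / T) *
            (bb a δ n * Real.cos (t * (x - Real.log n)))‖ := by fun_prop
          exact (this.integrableOn_Icc (a := 0) (b := T)).mono_set Ioc_subset_Icc_self
        · exact integrableOn_const (by
            rw [Real.volume_Ioc]
            exact ENNReal.ofReal_ne_top)
        · have h3 : ‖1 - t / T‖ ≤ 1 := by
            rw [Real.norm_eq_abs, abs_le]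
            have h4 : t / T ≤ 1 := by
              rw [div_le_one hT]
              exact ht.2
            have h5 : 0 ≤ t / T := div_nonneg ht.1.le hT.le
            constructor <;> linarith
          have h4 : ‖Real.cos (t * (x - Real.log n))‖ ≤ 1 := Real.abs_cos_le_one _
          rw [norm_mul, norm_mul, Real.norm_of_nonneg (bb_nonneg ha δ n)]
          have h5 := bb_nonneg ha δ n
          calc ‖1 - t / T‖ * (bb a δ n * ‖Real.cos (t * (x - Real.log n))‖)
              ≤ 1 * (bb a δ n * 1) := by gcongr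
            _ = _ := by ring
      rw [setIntegral_const, smul_eq_mul, Measure.real, Real.volume_Ioc,
        ENNReal.toReal_ofReal (by linarith), sub_zero] at h1
      exact h1)
  have hre : ∀ t : ℝ, ∑' n : ℕ, (1 - t / T) * (bb a δ n * Real.cos (t * (x - Real.log n))) =
      (1 - t / T) * (cexp ((t * x : ℝ) * I) *
        LSeries (fun n => (a n : ℂ)) (1 + δ + t * I)).re := by
    intro t
    have h1 := (hs (1 + δ + t * I) (by simp; exact hδ)).hasSum
    have h2 := Complex.hasSum_re (h1.mul_left (cexp ((t * x : ℝ) * I)))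
    simp only [term_re ha hδ x t] at h2
    exact (h2.mul_left (1 - t / T)).tsum_eq
  simp only [hre] at hF
  have hk : ∀ n : ℕ, 2 * ∫ t in Ioc 0 T, (1 - t / T) *
      (bb a δ n * Real.cos (t * (x - Real.log n))) = bb a δ n * kk T (x - Real.log n) := by
    intro n
    rw [kk, intervalIntegral.integral_of_le hT.le]
    have : ∀ t : ℝ, (1 - t / T) * (bb a δ n * Real.cos (t * (x - Real.log n))) =
        bb a δ n * ((1 - t / T) * Real.cos (t * (x - Real.log n))) := fun t => by ring
    simp only [this]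
    rw [integral_const_mul]
    ring
  have hF2 := hF.mul_left 2
  simp only [hk] at hF2
  refine ⟨hF2.summable, ?_⟩
  rw [SS, hF2.tsum_eq, intervalIntegral.integral_of_le hT.le]

end

/-- the remainder -/
noncomputable def RR (H : ℂ → ℂ) (T δ x : ℝ) : ℝ := 2 * ∫ t in (0 : ℝ)..T, (1 - t / T) *
  (cexp ((t * x : ℝ) * I) * H (1 + δ + t * I)).re

theorem cont_H {H : ℂ → ℂ} (hH : ContinuousOn H {s | 1 ≤ s.re}) {δ : ℝ} (hδ : 0 ≤ δ) :
    Continuous fun t : ℝ => H (1 + δ + t * I) := by
  rw [← continuousOn_univ]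
  refine hH.comp (Continuous.continuousOn (by fun_prop)) fun t _ => ?_
  simp
  exact hδ

theorem SS_split {a : ℕ → ℝ} (ha : ∀ n, 0 ≤ a n)
    (hs : ∀ s : ℂ, 1 < s.re → LSeriesSummable (fun n => (a n : ℂ)) s) {H : ℂ → ℂ}
    (hH : ContinuousOn H {s | 1 ≤ s.re})
    (hA : ∀ s : ℂ, 1 < s.re → LSeries (fun n => (a n : ℂ)) s = H s + 1 / (s - 1))
    {T : ℝ} (hT : 0 < T) {δ : ℝ} (hδ : 0 < δ) (x : ℝ) :
    SS a T δ x = JJ T δ x + RR H T δ x := by
  rw [(SS_eq ha hs hT hδ x).2, JJ_eq hT hδ, RR, ← mul_add, ← intervalIntegral.integral_add]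
  · congr 1
    refine intervalIntegral.integral_congr fun t _ => ?_
    beta_reduce
    rw [hA _ (by simp; exact hδ), show (1 + (δ : ℂ) + t * I - 1) = δ + t * I by ring]
    rw [mul_add, Complex.add_re]
    ring
  · refine Continuous.intervalIntegrable ?_ _ _
    have h1 : Continuous fun t : ℝ => 1 / ((δ : ℂ) + t * I) := by
      refine continuous_const.div (by fun_prop) fun t h => ?_
      have := congrArg Complex.re h
      simp at this
      linarith
    exact (by fun_prop : Continuous fun t : ℝ => (1 - t / T)).mul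
      (Complex.continuous_re.comp ((by fun_prop : Continuous fun t : ℝ =>
        cexp ((t * x : ℝ) * I)).mul h1))
  · refine Continuous.intervalIntegrable ?_ _ _
    exact (by fun_prop : Continuous fun t : ℝ => (1 - t / T)).mul
      (Complex.continuous_re.comp ((by fun_prop : Continuous fun t : ℝ =>
        cexp ((t * x : ℝ) * I)).mul (cont_H hH hδ.le)))

end Pool.Agent.H72.SM
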