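import Pool.Agent.H72.SM.PNc

/-!
# A Tauberian lower bound: bounds
-/

set_option autoImplicit false

open Real Complex MeasureTheory Set Filter Topology

namespace Pool.Agent.H72.SM

/-- bound for the remainder -/
theorem RR_le {H : ℂ → ℂ} (hH : ContinuousOn H {s | 1 ≤ s.re}) {T : ℝ} (hT : 0 < T) :
    ∃ M : ℝ, 0 ≤ M ∧ ∀ δ x : ℝ, 0 ≤ δ → δ ≤ 1 → |RR H T δ x| ≤ M := by
  have hc : IsCompact ((fun p : ℝ × ℝ => (1 + p.1 + p.2 * I : ℂ)) '' (Icc 0 1 ×ˢ Icc 0 T)) :=
    (isCompact_Icc.prod isCompact_Icc).image (by fun_prop)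
  obtain ⟨M, hM⟩ := hc.exists_bound_of_continuousOn (hH.mono (by
    rintro _ ⟨p, hp, rfl⟩
    simp
    exact hp.1.1))
  have hM0 : 0 ≤ M := (norm_nonneg _).trans (hM _ ⟨(0, 0), ⟨⟨le_rfl, zero_le_one⟩,
    ⟨le_rfl, hT.le⟩⟩, rfl⟩)
  refine ⟨2 * (M * T), by positivity, fun δ x hδ hδ1 => ?_⟩
  rw [RR, abs_mul, abs_of_pos (by norm_num : (0 : ℝ) < 2)]
  have h1 := intervalIntegral.norm_integral_le_of_norm_le_const (a := 0) (b := T) (C := M)
    (f := fun t : ℝ => (1 - t / T) * (cexp ((t * x : ℝ) * I) * H (1 + δ + t * I)).re)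
    (fun t ht => by
      rw [uIoc_of_le hT.le] at ht
      have h3 : ‖1 - t / T‖ ≤ 1 := by
        rw [Real.norm_eq_abs, abs_le]
        have h4 : t / T ≤ 1 := by
          rw [div_le_one hT]
          exact ht.2
        have h5 : 0 ≤ t / T := div_nonneg ht.1.le hT.le
        constructor <;> linarith
      have h4 : ‖(cexp ((t * x : ℝ) * I) * H (1 + δ + t * I)).re‖ ≤ M := by
        rw [Real.norm_eq_abs]
        refine (Complex.abs_re_le_norm _).trans ?_
        rw [norm_mul, Complex.norm_exp_ofReal_mul_I, one_mul]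
        exact hM _ ⟨(δ, t), ⟨⟨hδ, hδ1⟩, ⟨ht.1.le, ht.2⟩⟩, rfl⟩
      rw [norm_mul]
      calc ‖1 - t / T‖ * ‖(cexp ((t * x : ℝ) * I) * H (1 + δ + t * I)).re‖ ≤ 1 * M := by gcongr
        _ = M := one_mul M)
  rw [sub_zero, abs_of_pos hT, Real.norm_eq_abs] at h1
  linarith

/-- the remainder tends to zero -/
theorem RR_tendsto {H : ℂ → ℂ} (hH : ContinuousOn H {s | 1 ≤ s.re}) {T : ℝ} (hT : 0 < T) :
    Tendsto (fun x : ℝ => RR H T 0 x) atTop (𝓝 0) := by
  set f : ℝ → ℂ := (Ioc 0 T).indicator (fun t : ℝ => ((1 - t / T : ℝ) : ℂ) *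
    H (1 + (0 : ℝ) + t * I)) with hf
  have h1 := Real.tendsto_integral_exp_smul_cocompact f
  have h2 : Tendsto (fun x : ℝ => -(x / (2 * Real.pi))) atTop (cocompact ℝ) := by
    have h3 : Tendsto (fun x : ℝ => x / (2 * Real.pi)) atTop atTop :=
      tendsto_id.atTop_div_const (by positivity)
    have h4 : Tendsto (fun x : ℝ => -(x / (2 * Real.pi))) atTop atBot :=
      tendsto_neg_atTop_atBot.comp h3
    exact h4.mono_right atBot_le_cocompact
  have h3 := h1.comp h2
  have h4 : Tendsto (fun x : ℝ => 2 * (∫ v : ℝ, Real.fourierChar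
      (-(v * -(x / (2 * Real.pi)))) • f v).re) atTop (𝓝 0) := by
    have h5 := (Complex.continuous_re.tendsto _).comp h3
    simpa using h5.const_mul 2
  refine h4.congr fun x => ?_
  rw [RR]
  congr 1
  have e1 : (∫ v : ℝ, Real.fourierChar (-(v * -(x / (2 * Real.pi)))) • f v) =
      ∫ t in Ioc 0 T, ((1 - t / T : ℝ) : ℂ) *
        (cexp ((t * x : ℝ) * I) * H (1 + (0 : ℝ) + t * I)) := by
    rw [← integral_indicator measurableSet_Ioc]
    congr 1
    funext v
    rw [hf]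
    by_cases hv : v ∈ Ioc 0 T
    · rw [indicator_of_mem hv, indicator_of_mem hv, Circle.smul_def, Real.fourierChar_apply]
      have : ((2 * Real.pi * -(v * -(x / (2 * Real.pi))) : ℝ) : ℂ) * I =
          ((v * x : ℝ) : ℂ) * I := by
        congr 2
        have := Real.pi_pos
        field_simp
      rw [this, smul_eq_mul]
      ring
    · rw [indicator_of_notMem hv, indicator_of_notMem hv, smul_zero]
  rw [e1, intervalIntegral.integral_of_le hT.le]
  have hint : Integrable (fun t : ℝ => ((1 - t / T : ℝ) : ℂ) *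
      (cexp ((t * x : ℝ) * I) * H (1 + (0 : ℝ) + t * I))) (volume.restrict (Ioc 0 T)) := by
    have hc : Continuous fun t : ℝ => ((1 - t / T : ℝ) : ℂ) *
      (cexp ((t * x : ℝ) * I) * H (1 + (0 : ℝ) + t * I)) :=
      (by fun_prop : Continuous fun t : ℝ => ((1 - t / T : ℝ) : ℂ)).mul
      ((by fun_prop : Continuous fun t : ℝ =>
        cexp ((t * x : ℝ) * I)).mul (cont_H hH le_rfl))
    exact (hc.integrableOn_Icc (a := 0) (b := T)).mono_set Ioc_subset_Icc_self
  rw [show (∫ t in Ioc 0 T, ((1 - t / T : ℝ) : ℂ) *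
      (cexp ((t * x : ℝ) * I) * H (1 + (0 : ℝ) + t * I))).re = ∫ t in Ioc 0 T,
      (((1 - t / T : ℝ) : ℂ) * (cexp ((t * x : ℝ) * I) * H (1 + (0 : ℝ) + t * I))).re from
    (integral_re hint).symm]
  congr 1
  funext t
  rw [Complex.re_ofReal_mul]

/-- continuity in `δ` -/
theorem RR_cont {H : ℂ → ℂ} (hH : ContinuousOn H {s | 1 ≤ s.re}) {T : ℝ} (hT : 0 < T) (x : ℝ) :
    Tendsto (fun δ : ℝ => RR H T δ x) (𝓝[>] 0) (𝓝 (RR H T 0 x)) := by
  have hc : IsCompact ((fun p : ℝ × ℝ => (1 + p.1 + p.2 * I : ℂ)) '' (Icc 0 1 ×ˢ Icc 0 T)) :=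
    (isCompact_Icc.prod isCompact_Icc).image (by fun_prop)
  obtain ⟨M, hM⟩ := hc.exists_bound_of_continuousOn (hH.mono (by
    rintro _ ⟨p, hp, rfl⟩
    simp
    exact hp.1.1))
  unfold RR
  refine Tendsto.const_mul 2 ?_
  refine intervalIntegral.tendsto_integral_filter_of_dominated_convergence (fun _ => M) ?_ ?_
    (by simp) ?_
  · filter_upwards [self_mem_nhdsWithin] with δ hδ
    refine Continuous.aestronglyMeasurable ?_
    exact (by fun_prop : Continuous fun t : ℝ => (1 - t / T)).mul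
      (Complex.continuous_re.comp ((by fun_prop : Continuous fun t : ℝ =>
        cexp ((t * x : ℝ) * I)).mul (cont_H hH (le_of_lt hδ))))
  · filter_upwards [Ioc_mem_nhdsGT (zero_lt_one' ℝ)] with δ hδ
    refine Eventually.of_forall fun t ht => ?_
    rw [uIoc_of_le hT.le] at ht
    have h3 : ‖1 - t / T‖ ≤ 1 := by
      rw [Real.norm_eq_abs, abs_le]
      have h4 : t / T ≤ 1 := by
        rw [div_le_one hT]
        exact ht.2
      have h5 : 0 ≤ t / T := div_nonneg ht.1.le hT.le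
      constructor <;> linarith
    have h4 : ‖(cexp ((t * x : ℝ) * I) * H (1 + δ + t * I)).re‖ ≤ M := by
      rw [Real.norm_eq_abs]
      refine (Complex.abs_re_le_norm _).trans ?_
      rw [norm_mul, Complex.norm_exp_ofReal_mul_I, one_mul]
      exact hM _ ⟨(δ, t), ⟨⟨hδ.1.le, hδ.2⟩, ⟨ht.1.le, ht.2⟩⟩, rfl⟩
    rw [norm_mul]
    calc ‖1 - t / T‖ * ‖(cexp ((t * x : ℝ) * I) * H (1 + δ + t * I)).re‖ ≤ 1 * M := by gcongr
      _ = M := one_mul M
  · refine Eventually.of_forall fun t _ => ?_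
    refine Tendsto.const_mul _ ?_
    refine (Complex.continuous_re.tendsto _).comp (Tendsto.const_mul _ ?_)
    have h1 : ContinuousWithinAt H {s | 1 ≤ s.re} (1 + ((0 : ℝ) : ℂ) + t * I) := hH _ (by simp)
    refine h1.tendsto.comp ?_
    refine tendsto_nhdsWithin_of_tendsto_nhds_of_eventually_within _ ?_ ?_
    · have h2 : Continuous fun δ : ℝ => (1 + (δ : ℂ) + t * I) := by fun_prop
      exact (h2.tendsto 0).mono_left nhdsWithin_le_nhds
    · filter_upwards [self_mem_nhdsWithin] with δ hδ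
      simp
      exact le_of_lt hδ

theorem sum_int : Summable fun j : ℤ => 1 / (1 + (j : ℝ) ^ 2) := by
  have h1 : Summable fun j : ℤ => 1 / (j : ℝ) ^ 2 :=
    Real.summable_one_div_int_pow.2 (by norm_num)
  refine Summable.of_norm_bounded_eventually h1 ?_
  have h2 : ∀ᶠ j : ℤ in cofinite, j ≠ 0 := by
    rw [Filter.eventually_cofinite]
    simp
  filter_upwards [h2] with j hj
  have hj0 : (0 : ℝ) < (j : ℝ) ^ 2 := by positivity
  rw [Real.norm_of_nonneg (by positivity)]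
  exact one_div_le_one_div_of_le hj0 (by linarith)

end Pool.Agent.H72.SM
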