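import Pool.Agent.H72.SM.PNd

/-!
# A Tauberian lower bound
-/

set_option autoImplicit false

open Real Complex MeasureTheory Set Filter Topology

namespace Pool.Agent.H72.SM

open Pool.Agent.H27.LS (hat)
open Pool.Agent.H30.BV (NX)

/-- lower bound for the sum of nonnegative coefficients over a window -/
theorem tauber {a : ℕ → ℝ} (ha : ∀ n, 0 ≤ a n)
    (hs : ∀ s : ℂ, 1 < s.re → LSeriesSummable (fun n => (a n : ℂ)) s) {H : ℂ → ℂ}
    (hH : ContinuousOn H {s | 1 ≤ s.re})
    (hA : ∀ s : ℂ, 1 < s.re → LSeries (fun n => (a n : ℂ)) s = H s + 1 / (s - 1)) :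
    ∃ c x₀ : ℝ, 0 < c ∧ ∀ x : ℝ, x₀ ≤ x → ∀ F : Finset ℕ,
      (∀ n : ℕ, |x - Real.log n| ≤ 1 / 2 → n ∈ F) →
      c ≤ ∑ n ∈ F.filter (fun n : ℕ => |x - Real.log n| ≤ 1 / 2), a n / n := by
  classical
  obtain ⟨M, hM0, hM⟩ := RR_le hH one_pos
  set C1 : ℝ := (1 + 4 / 1) * Real.pi + M with hC1
  have hC10 : 0 < C1 := by
    have := Real.pi_pos
    positivity
  -- windows
  have hwin : ∀ (δ y : ℝ), 0 < δ → δ ≤ 1 → ∀ G : Finset ℕ, (∀ n ∈ G, |y - Real.log n| ≤ 1) →
      ∑ n ∈ G, bb a δ n ≤ 2 * C1 := by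
    intro δ y hδ hδ1 G hG
    have h1 : SS a 1 δ y ≤ C1 := by
      rw [SS_split ha hs hH hA one_pos hδ y]
      have h2 := JJ_le one_pos hδ y
      have h3 := (le_abs_self _).trans (hM δ y hδ.le hδ1)
      linarith
    have h2 : ∑ n ∈ G, bb a δ n * kk 1 (y - Real.log n) ≤ SS a 1 δ y :=
      (SS_eq ha hs one_pos hδ y).1.sum_le_tsum G fun n _ =>
        mul_nonneg (bb_nonneg ha δ n) (kk_nonneg one_pos _)
    have h3 : ∑ n ∈ G, bb a δ n * (1 / 2) ≤ ∑ n ∈ G, bb a δ n * kk 1 (y - Real.log n) := by
      refine Finset.sum_le_sum fun n hn => ?_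
      have h4 := kk_lower one_pos (u := y - Real.log n) (by simpa using hG n hn)
      exact mul_le_mul_of_nonneg_left h4 (bb_nonneg ha δ n)
    rw [← Finset.sum_mul] at h3
    linarith
  -- tails
  set S : ℝ := ∑' j : ℤ, 1 / (1 + (j : ℝ) ^ 2) with hS
  have hS0 : 0 ≤ S := tsum_nonneg fun j => by positivity
  have htail : ∀ (δ x : ℝ), 0 < δ → δ ≤ 1 → ∀ G : Finset ℕ,
      (∀ n ∈ G, 1 / 2 < |x - Real.log n|) →
      ∑ n ∈ G, bb a δ n * (1 / (x - Real.log n) ^ 2) ≤ 26 * C1 * S := by
    intro δ x hδ hδ1 G hG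
    have h1 := Finset.sum_fiberwise_of_maps_to (s := G)
      (t := G.image fun n : ℕ => ⌊x - Real.log n⌋) (g := fun n : ℕ => ⌊x - Real.log n⌋)
      (fun n hn => Finset.mem_image_of_mem _ hn)
      (fun n : ℕ => bb a δ n * (1 / (x - Real.log n) ^ 2))
    rw [← h1]
    calc ∑ j ∈ G.image fun n : ℕ => ⌊x - Real.log n⌋,
          ∑ n ∈ G.filter (fun n : ℕ => ⌊x - Real.log n⌋ = j),
            bb a δ n * (1 / (x - Real.log n) ^ 2)
        ≤ ∑ j ∈ G.image fun n : ℕ => ⌊x - Real.log n⌋, 26 * C1 * (1 / (1 + (j : ℝ) ^ 2)) := by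
          refine Finset.sum_le_sum fun j _ => ?_
          have h2 : ∀ n ∈ G.filter (fun n : ℕ => ⌊x - Real.log n⌋ = j),
              bb a δ n * (1 / (x - Real.log n) ^ 2) ≤
                bb a δ n * (13 * (1 / (1 + (j : ℝ) ^ 2))) := by
            intro n hn
            rw [Finset.mem_filter] at hn
            have h3 := hG n hn.1
            have h4 := Int.floor_le (x - Real.log n)
            have h5 := Int.lt_floor_add_one (x - Real.log n)
            rw [hn.2] at h4 h5
            set v : ℝ := x - Real.log n with hv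
            have h6 : 1 / 4 < v ^ 2 := by
              rw [← sq_abs]
              nlinarith
            have h7 : 1 + (j : ℝ) ^ 2 ≤ 13 * v ^ 2 := by
              have h8 : |(j : ℝ)| ≤ |v| + 1 := by
                rw [abs_le]
                have := le_abs_self v
                have := neg_abs_le v
                constructor <;> linarith
              have h9 : (j : ℝ) ^ 2 ≤ (|v| + 1) ^ 2 := by
                rw [← sq_abs (j : ℝ)]
                gcongr
              have h10 : |v| ^ 2 = v ^ 2 := sq_abs v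
              nlinarith
            refine mul_le_mul_of_nonneg_left ?_ (bb_nonneg ha δ n)
            rw [mul_one_div, div_le_div_iff₀ (by positivity) (by positivity)]
            linarith
          refine (Finset.sum_le_sum h2).trans ?_
          rw [← Finset.sum_mul]
          have h3 := hwin δ (x - j - 1 / 2) hδ hδ1
            (G.filter (fun n : ℕ => ⌊x - Real.log n⌋ = j)) (by
              intro n hn
              rw [Finset.mem_filter] at hn
              have h4 := Int.floor_le (x - Real.log n)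
              have h5 := Int.lt_floor_add_one (x - Real.log n)
              rw [hn.2] at h4 h5
              rw [abs_le]
              constructor <;> linarith)
          calc (∑ n ∈ G.filter (fun n : ℕ => ⌊x - Real.log n⌋ = j), bb a δ n) *
                (13 * (1 / (1 + (j : ℝ) ^ 2)))
              ≤ (2 * C1) * (13 * (1 / (1 + (j : ℝ) ^ 2))) := by gcongr
            _ = _ := by ring
      _ = 26 * C1 * ∑ j ∈ G.image fun n : ℕ => ⌊x - Real.log n⌋, 1 / (1 + (j : ℝ) ^ 2) := by
          rw [Finset.mul_sum]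
      _ ≤ 26 * C1 * S := by
          refine mul_le_mul_of_nonneg_left ?_ (by positivity)
          exact sum_int.sum_le_tsum _ fun j _ => by positivity
  -- the choice of `T`
  set T : ℝ := 1 + 16 * (4 * (26 * C1 * S)) with hT
  have hT1 : 1 ≤ T := by
    have : 0 ≤ 16 * (4 * (26 * C1 * S)) := by positivity
    linarith
  have hT0 : 0 < T := by linarith
  have hTC : 4 / T * (26 * C1 * S) ≤ 1 / 16 := by
    rw [div_mul_eq_mul_div, div_le_iff₀ hT0]
    linarith
  have hR0 := RR_tendsto hH hT0
  obtain ⟨x₁, hx₁⟩ := Filter.eventually_atTop.1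
    (hR0.eventually (lt_mem_nhds (show (-(1 / 2) : ℝ) < 0 by norm_num)))
  refine ⟨1 / (4 * T), max x₁ 1, by positivity, fun x hx F hF => ?_⟩
  have hx1 : 1 ≤ x := (le_max_right _ _).trans hx
  have hR1 := hx₁ x ((le_max_left _ _).trans hx)
  set Nr : ℝ := ∑ n ∈ F.filter (fun n : ℕ => |x - Real.log n| ≤ 1 / 2), a n / n with hNr
  -- upper bound for the sum
  have hup : ∀ δ : ℝ, 0 < δ → δ ≤ 1 → SS a T δ x ≤ T * Nr + 1 / 16 := by
    intro δ hδ hδ1
    refine Real.tsum_le_of_sum_le (fun n =>
        mul_nonneg (bb_nonneg ha δ n) (kk_nonneg hT0 _)) fun G => ?_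
    rw [← Finset.sum_filter_add_sum_filter_not G (fun n : ℕ => |x - Real.log n| ≤ 1 / 2)]
    refine add_le_add ?_ ?_
    · rw [hNr, Finset.mul_sum]
      refine (Finset.sum_le_sum (g := fun n => T * (a n / n)) fun n hn => ?_).trans
        (Finset.sum_le_sum_of_subset_of_nonneg ?_ ?_)
      · rw [Finset.mem_filter] at hn
        by_cases hn0 : n = 0
        · exfalso
          have h1 := hn.2
          rw [hn0] at h1
          simp at h1
          rw [abs_of_pos (by linarith)] at h1
          linarith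
        · have hn1 : (1 : ℝ) ≤ n := by exact_mod_cast Nat.one_le_iff_ne_zero.2 hn0
          have h1 : bb a δ n ≤ a n / n := by
            rw [bb, div_eq_mul_inv]
            refine mul_le_mul_of_nonneg_left ?_ (ha n)
            calc (n : ℝ) ^ (-(1 + δ)) ≤ (n : ℝ) ^ (-1 : ℝ) :=
                  Real.rpow_le_rpow_of_exponent_le hn1 (by linarith)
              _ = (n : ℝ)⁻¹ := Real.rpow_neg_one _
          have h2 := kk_le hT0 (x - Real.log n)
          have h3 := bb_nonneg ha δ n
          have h4 := kk_nonneg hT0 (x - Real.log n)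
          calc bb a δ n * kk T (x - Real.log n) ≤ (a n / n) * T :=
                mul_le_mul h1 h2 h4 (div_nonneg (ha n) (by linarith))
            _ = _ := mul_comm _ _
      · intro n hn
        rw [Finset.mem_filter] at hn ⊢
        exact ⟨hF n hn.2, hn.2⟩
      · intro n _ _
        have := ha n
        positivity
    · refine le_trans ?_ hTC
      have h5 := htail δ x hδ hδ1 (G.filter fun n : ℕ => ¬ |x - Real.log n| ≤ 1 / 2) (by
        intro n hn
        rw [Finset.mem_filter] at hn
        exact not_le.1 hn.2)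
      refine le_trans ?_ (mul_le_mul_of_nonneg_left h5 (by positivity : 0 ≤ 4 / T))
      rw [Finset.mul_sum]
      refine Finset.sum_le_sum fun n hn => ?_
      rw [Finset.mem_filter, not_le] at hn
      have h6 : 0 < (x - Real.log n) ^ 2 := by
        rw [← sq_abs]
        have : 0 < |x - Real.log n| := by linarith [hn.2]
        positivity
      have h7 := kk_sq_le hT0 (x - Real.log n)
      have h8 : kk T (x - Real.log n) ≤ 4 / T * (1 / (x - Real.log n) ^ 2) := by
        rw [mul_one_div, le_div_iff₀ h6]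
        exact h7
      calc bb a δ n * kk T (x - Real.log n) ≤
            bb a δ n * (4 / T * (1 / (x - Real.log n) ^ 2)) :=
            mul_le_mul_of_nonneg_left h8 (bb_nonneg ha δ n)
        _ = _ := by ring
  -- the limit
  have h1 : ∀ᶠ δ : ℝ in 𝓝[>] 0, Real.exp (-(δ * (x + 1))) + RR H T δ x ≤ T * Nr + 1 / 16 := by
    filter_upwards [Ioc_mem_nhdsGT (zero_lt_one' ℝ)] with δ hδ
    have h2 := hup δ hδ.1 hδ.2
    rw [SS_split ha hs hH hA hT0 hδ.1 x] at h2
    have h3 := le_JJ hT1 hδ.1 hx1
    linarith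
  have h2 : Tendsto (fun δ : ℝ => Real.exp (-(δ * (x + 1))) + RR H T δ x) (𝓝[>] 0)
      (𝓝 (1 + RR H T 0 x)) := by
    refine Tendsto.add ?_ (RR_cont hH hT0 x)
    have h3 : Continuous fun δ : ℝ => Real.exp (-(δ * (x + 1))) := by fun_prop
    have h4 := (h3.tendsto 0).mono_left (nhdsWithin_le_nhds (s := Ioi 0))
    simpa using h4
  have h3 := le_of_tendsto h2 h1
  have h4 : 1 / 4 ≤ T * Nr := by linarith
  rw [div_le_iff₀ (by positivity)]
  linarith

end Pool.Agent.H72.SM
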